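import Mathlib

namespace Pool.Agent.Results.MP_7ad8d2_an.Main

open Matrix Finset

/-- The operator norm induced by the sup vector norm: the maximum absolute row sum. -/
noncomputable def infNorm {n : ℕ} (A : Matrix (Fin n) (Fin n) ℝ) : ℝ :=
  ⨆ i, ∑ j, |A i j|

/-- Diagonal dominance of row `i` (for entrywise positive matrices). -/
def rowDom {n : ℕ} (J : Matrix (Fin n) (Fin n) ℝ) (i : Fin n) : ℝ :=
  J i i - ∑ j ∈ univ.erase i, J i j

/-- The class `C_n(m, δ)`. -/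
structure InClass (n : ℕ) (m δ : ℝ) (J : Matrix (Fin n) (Fin n) ℝ) : Prop where
  symm : J.IsSymm
  pos : ∀ i j, 0 < J i j
  off_le : ∀ i j, i ≠ j → J i j ≤ m
  dom_nonneg : ∀ i, 0 ≤ rowDom J i
  dom_le : ∀ i, rowDom J i ≤ δ

/-- The matrix `S(α, m) = α I + m 1 1ᵀ`. -/
def S (n : ℕ) (α m : ℝ) : Matrix (Fin n) (Fin n) ℝ :=
  α • (1 : Matrix (Fin n) (Fin n) ℝ) + m • Matrix.of (fun _ _ => (1 : ℝ))

lemma diag_eq {n : ℕ} (J : Matrix (Fin n) (Fin n) ℝ) (i : Fin n) :
    J i i = rowDom J i + ∑ j ∈ univ.erase i, J i j := by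
  unfold rowDom; ring

/-- Quadratic form of a symmetric matrix through dominances and pair weights. -/
lemma quad_form {n : ℕ} (J : Matrix (Fin n) (Fin n) ℝ) (hJ : J.IsSymm) (x : Fin n → ℝ) :
    x ⬝ᵥ (J *ᵥ x) = ∑ i, rowDom J i * x i ^ 2 +
      (1 / 2) * ∑ i, ∑ j ∈ univ.erase i, J i j * (x i + x j) ^ 2 := by
  have h1 : x ⬝ᵥ (J *ᵥ x) = ∑ i, (J i i * x i ^ 2 + ∑ j ∈ univ.erase i, J i j * x i * x j) := by
    simp only [dotProduct, mulVec]
    refine sum_congr rfl fun i _ => ?_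
    rw [← add_sum_erase univ (fun j => J i j * x j) (mem_univ i), mul_add, mul_sum]
    congr 1
    · ring
    · refine sum_congr rfl fun j _ => ?_
      ring
  have h2 : ∑ i, ∑ j ∈ univ.erase i, J i j * x j ^ 2 = ∑ i, ∑ j ∈ univ.erase i, J i j * x i ^ 2 := by
    have e : ∀ f : Fin n → Fin n → ℝ, ∑ i, ∑ j ∈ univ.erase i, f i j
        = ∑ i, ∑ j, if j ≠ i then f i j else 0 := by
      intro f
      refine sum_congr rfl fun i _ => ?_
      rw [← sum_filter]
      refine sum_congr ?_ fun _ _ => rfl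
      ext j; simp
    rw [e, e, sum_comm]
    refine sum_congr rfl fun i _ => sum_congr rfl fun j _ => ?_
    by_cases h : i = j
    · simp [h]
    · have h' : j ≠ i := fun hh => h hh.symm
      simp only [ne_eq, h, not_false_eq_true, if_true, h', hJ.apply i j]
  have h3 : ∑ i, ∑ j ∈ univ.erase i, J i j * (x i + x j) ^ 2
      = 2 * ∑ i, ∑ j ∈ univ.erase i, J i j * x i ^ 2
        + 2 * ∑ i, ∑ j ∈ univ.erase i, J i j * x i * x j := by
    have : ∑ i, ∑ j ∈ univ.erase i, J i j * (x i + x j) ^ 2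
      = ∑ i, ∑ j ∈ univ.erase i, J i j * x i ^ 2 + ∑ i, ∑ j ∈ univ.erase i, J i j * x j ^ 2
        + 2 * ∑ i, ∑ j ∈ univ.erase i, J i j * x i * x j := by
      simp only [mul_sum, ← sum_add_distrib]
      refine sum_congr rfl fun i _ => sum_congr rfl fun j _ => ?_
      ring
    rw [this, h2]; ring
  rw [h1, h3, sum_add_distrib]
  have h4 : ∑ i, J i i * x i ^ 2 = ∑ i, rowDom J i * x i ^ 2
      + ∑ i, ∑ j ∈ univ.erase i, J i j * x i ^ 2 := by
    rw [← sum_add_distrib]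
    refine sum_congr rfl fun i _ => ?_
    rw [diag_eq J i, add_mul, sum_mul]
  rw [h4]; ring

lemma exists_third {n : ℕ} (hn : 3 ≤ n) (i : Fin n) :
    ∃ j k : Fin n, j ≠ i ∧ k ≠ i ∧ j ≠ k := by
  have hc : 2 ≤ (univ.erase i : Finset (Fin n)).card := by
    rw [card_erase_of_mem (mem_univ i), card_univ, Fintype.card_fin]; omega
  obtain ⟨j, hj, k, hk, hjk⟩ := one_lt_card.mp (show 1 < (univ.erase i : Finset (Fin n)).card by omega)
  exact ⟨j, k, (mem_erase.mp hj).1, (mem_erase.mp hk).1, hjk⟩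

/-- Nonnegativity of the quadratic form. -/
lemma quad_nonneg {n : ℕ} {m δ : ℝ} {J : Matrix (Fin n) (Fin n) ℝ} (h : InClass n m δ J)
    (x : Fin n → ℝ) : 0 ≤ x ⬝ᵥ (J *ᵥ x) := by
  rw [quad_form J h.symm]
  have a : 0 ≤ ∑ i, rowDom J i * x i ^ 2 :=
    sum_nonneg fun i _ => mul_nonneg (h.dom_nonneg i) (sq_nonneg _)
  have b : 0 ≤ ∑ i, ∑ j ∈ univ.erase i, J i j * (x i + x j) ^ 2 :=
    sum_nonneg fun i _ => sum_nonneg fun j _ => mul_nonneg (h.pos i j).le (sq_nonneg _)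
  linarith

/-- Definiteness of the quadratic form for `n ≥ 3`. -/
lemma quad_pos {n : ℕ} (hn : 3 ≤ n) {m δ : ℝ} {J : Matrix (Fin n) (Fin n) ℝ}
    (h : InClass n m δ J) (x : Fin n → ℝ) (hx : x ⬝ᵥ (J *ᵥ x) = 0) : x = 0 := by
  rw [quad_form J h.symm] at hx
  have a : 0 ≤ ∑ i, rowDom J i * x i ^ 2 :=
    sum_nonneg fun i _ => mul_nonneg (h.dom_nonneg i) (sq_nonneg _)
  have b0 : ∀ i ∈ (univ : Finset (Fin n)), 0 ≤ ∑ j ∈ univ.erase i, J i j * (x i + x j) ^ 2 :=
    fun i _ => sum_nonneg fun j _ => mul_nonneg (h.pos i j).le (sq_nonneg _)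
  have b : 0 ≤ ∑ i, ∑ j ∈ univ.erase i, J i j * (x i + x j) ^ 2 := sum_nonneg b0
  have c : ∑ i, ∑ j ∈ univ.erase i, J i j * (x i + x j) ^ 2 = 0 := by linarith
  have d : ∀ i j, j ≠ i → x i + x j = 0 := by
    intro i j hij
    have := (sum_eq_zero_iff_of_nonneg b0).mp c i (mem_univ i)
    have := (sum_eq_zero_iff_of_nonneg
      (fun j _ => mul_nonneg (h.pos i j).le (sq_nonneg _))).mp this j
      (mem_erase.mpr ⟨hij, mem_univ j⟩)
    rcases mul_eq_zero.mp this with h0 | h0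
    · exact absurd h0 (h.pos i j).ne'
    · exact pow_eq_zero_iff (two_ne_zero) |>.mp h0
  funext i
  obtain ⟨j, k, hj, hk, hjk⟩ := exists_third hn i
  have e1 := d i j hj
  have e2 := d i k hk
  have e3 := d j k (fun hh => hjk hh.symm)
  simp only [Pi.zero_apply]
  linarith

lemma det_unit {n : ℕ} (hn : 3 ≤ n) {m δ : ℝ} {J : Matrix (Fin n) (Fin n) ℝ}
    (h : InClass n m δ J) : IsUnit J.det := by
  rw [isUnit_iff_ne_zero]
  intro h0
  obtain ⟨v, hv, hv'⟩ := Matrix.exists_mulVec_eq_zero_iff.mpr h0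
  exact hv (quad_pos hn h v (by rw [hv']; simp))

lemma S_apply (n : ℕ) (α m : ℝ) (i j : Fin n) :
    S n α m i j = (if i = j then α else 0) + m := by
  simp [S, Matrix.one_apply]

/-- The explicit inverse of `S(α, m)`. -/
noncomputable def T (n : ℕ) (α m : ℝ) : Matrix (Fin n) (Fin n) ℝ :=
  Matrix.of fun i j => (if i = j then 1 / α else 0) - m / (α * (α + m * n))

lemma T_apply (n : ℕ) (α m : ℝ) (i j : Fin n) :
    T n α m i j = (if i = j then 1 / α else 0) - m / (α * (α + m * n)) := rfl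

lemma S_mul_T (n : ℕ) {α m : ℝ} (hα : 0 < α) (hm : 0 < m) : S n α m * T n α m = 1 := by
  ext i j
  have hn : (0 : ℝ) ≤ n := Nat.cast_nonneg n
  have h1 : 0 < α + m * n := by positivity
  rw [Matrix.mul_apply]
  have : ∀ k, S n α m i k * T n α m k j =
      (if i = k then α * T n α m k j else 0) + m * (if k = j then 1 / α else 0)
        - m * (m / (α * (α + m * n))) := by
    intro k
    rw [S_apply, T_apply]
    by_cases h : i = k
    · simp only [h, if_true]; ring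
    · simp only [h, if_false]; ring
  simp only [this, sum_sub_distrib, sum_add_distrib, sum_ite_eq, mem_univ, if_true,
    ← mul_sum, sum_ite_eq', sum_const, card_univ, Fintype.card_fin, nsmul_eq_mul]
  rw [T_apply, Matrix.one_apply]
  by_cases h : i = j
  · simp only [h, if_true]
    field_simp
    ring
  · simp only [h, if_false]
    field_simp
    ring

lemma S_inv (n : ℕ) {α m : ℝ} (hα : 0 < α) (hm : 0 < m) : (S n α m)⁻¹ = T n α m :=
  Matrix.inv_eq_right_inv (S_mul_T n hα hm)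

lemma card_erase' {n : ℕ} (hn : 3 ≤ n) (i : Fin n) :
    (((univ.erase i : Finset (Fin n)).card : ℕ) : ℝ) = n - 1 := by
  rw [card_erase_of_mem (mem_univ i), card_univ, Fintype.card_fin, Nat.cast_sub (by omega)]
  simp

lemma rowDom_S {n : ℕ} (hn : 3 ≤ n) (δ m : ℝ) (i : Fin n) :
    rowDom (S n (m * (n - 2) + δ) m) i = δ := by
  unfold rowDom
  have : ∑ j ∈ univ.erase i, S n (m * (n - 2) + δ) m i j = ∑ j ∈ univ.erase i, m := by
    refine sum_congr rfl fun j hj => ?_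
    rw [S_apply, if_neg (mem_erase.mp hj).1.symm, zero_add]
  rw [this, S_apply, if_pos rfl, sum_const, nsmul_eq_mul, card_erase' hn]
  ring

lemma S_symm (n : ℕ) (α m : ℝ) : (S n α m).IsSymm := by
  ext i j
  rw [Matrix.transpose_apply, S_apply, S_apply]
  simp only [eq_comm]

/-- The excess form. -/
noncomputable def excess {n : ℕ} (m δ : ℝ) (J : Matrix (Fin n) (Fin n) ℝ) (v : Fin n → ℝ) : ℝ :=
  ∑ i, (δ - rowDom J i) * v i ^ 2 +
      (1 / 2) * ∑ i, ∑ j ∈ univ.erase i, (m - J i j) * (v i + v j) ^ 2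

lemma S_sub_J {n : ℕ} (hn : 3 ≤ n) {m δ : ℝ} {J : Matrix (Fin n) (Fin n) ℝ}
    (h : InClass n m δ J) (v : Fin n → ℝ) :
    v ⬝ᵥ (J *ᵥ v) = v ⬝ᵥ (S n (m * (n - 2) + δ) m *ᵥ v) - excess m δ J v := by
  rw [quad_form J h.symm, quad_form _ (S_symm _ _ _), excess]
  simp only [rowDom_S hn]
  have h1 : ∑ i, ∑ j ∈ univ.erase i, S n (m * (n - 2) + δ) m i j * (v i + v j) ^ 2
      = ∑ i, ∑ j ∈ univ.erase i, m * (v i + v j) ^ 2 := by
    refine sum_congr rfl fun i _ => sum_congr rfl fun j hj => ?_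
    rw [S_apply, if_neg (mem_erase.mp hj).1.symm, zero_add]
  rw [h1]
  simp only [sub_mul, sum_sub_distrib]
  ring

lemma excess_nonneg {n : ℕ} {m δ : ℝ} {J : Matrix (Fin n) (Fin n) ℝ}
    (h : InClass n m δ J) (v : Fin n → ℝ) : 0 ≤ excess m δ J v := by
  have a : 0 ≤ ∑ i, (δ - rowDom J i) * v i ^ 2 :=
    sum_nonneg fun i _ => mul_nonneg (sub_nonneg.mpr (h.dom_le i)) (sq_nonneg _)
  have b : 0 ≤ ∑ i, ∑ j ∈ univ.erase i, (m - J i j) * (v i + v j) ^ 2 :=
    sum_nonneg fun i _ => sum_nonneg fun j hj =>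
      mul_nonneg (sub_nonneg.mpr (h.off_le i j (mem_erase.mp hj).1.symm)) (sq_nonneg _)
  unfold excess; linarith

lemma excess_zero {n : ℕ} (hn : 3 ≤ n) {m δ : ℝ} {J : Matrix (Fin n) (Fin n) ℝ}
    (h : InClass n m δ J) (v : Fin n → ℝ) (hv : ∀ i, v i ≠ 0)
    (hv' : ∀ i j, i ≠ j → v i + v j ≠ 0) (h0 : excess m δ J v = 0) :
    J = S n (m * (n - 2) + δ) m := by
  have a0 : ∀ i ∈ (univ : Finset (Fin n)), 0 ≤ (δ - rowDom J i) * v i ^ 2 :=
    fun i _ => mul_nonneg (sub_nonneg.mpr (h.dom_le i)) (sq_nonneg _)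
  have b1 : ∀ i, ∀ j ∈ (univ.erase i : Finset (Fin n)), 0 ≤ (m - J i j) * (v i + v j) ^ 2 :=
    fun i j hj => mul_nonneg (sub_nonneg.mpr (h.off_le i j (mem_erase.mp hj).1.symm)) (sq_nonneg _)
  have b0 : ∀ i ∈ (univ : Finset (Fin n)),
      0 ≤ ∑ j ∈ univ.erase i, (m - J i j) * (v i + v j) ^ 2 :=
    fun i _ => sum_nonneg (b1 i)
  have a := sum_nonneg a0
  have b := sum_nonneg b0
  unfold excess at h0
  have a' : ∑ i, (δ - rowDom J i) * v i ^ 2 = 0 := by linarith
  have b' : ∑ i, ∑ j ∈ univ.erase i, (m - J i j) * (v i + v j) ^ 2 = 0 := by linarith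
  have hd : ∀ i, rowDom J i = δ := by
    intro i
    have := (sum_eq_zero_iff_of_nonneg a0).mp a' i (mem_univ i)
    rcases mul_eq_zero.mp this with h1 | h1
    · linarith
    · exact absurd (pow_eq_zero_iff (two_ne_zero) |>.mp h1) (hv i)
  have ho : ∀ i j, i ≠ j → J i j = m := by
    intro i j hij
    have := (sum_eq_zero_iff_of_nonneg b0).mp b' i (mem_univ i)
    have := (sum_eq_zero_iff_of_nonneg (b1 i)).mp this j (mem_erase.mpr ⟨hij.symm, mem_univ j⟩)
    rcases mul_eq_zero.mp this with h1 | h1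
    · linarith
    · exact absurd (pow_eq_zero_iff (two_ne_zero) |>.mp h1) (hv' i j hij)
  ext i j
  rw [S_apply]
  by_cases hij : i = j
  · subst hij
    rw [diag_eq J i, hd i, if_pos rfl]
    have : ∑ j ∈ univ.erase i, J i j = ∑ j ∈ univ.erase i, m :=
      sum_congr rfl fun j hj => ho i j (mem_erase.mp hj).1.symm
    rw [this, sum_const, nsmul_eq_mul, card_erase' hn]
    ring
  · rw [ho i j hij, if_neg hij, zero_add]

/-- Lower bound for the diagonal entries of the inverse. -/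
lemma diag_lower {n : ℕ} (hn : 3 ≤ n) {m δ : ℝ} (hm : 0 < m) (hδ : 0 ≤ δ)
    {J : Matrix (Fin n) (Fin n) ℝ} (h : InClass n m δ J) (i : Fin n) (u : Fin n → ℝ)
    (hu : J *ᵥ u = Pi.single i 1) :
    T n (m * (n - 2) + δ) m i i + excess m δ J (T n (m * (n - 2) + δ) m i) ≤ u i := by
  have hn' : (3 : ℝ) ≤ n := by exact_mod_cast hn
  have hα : 0 < m * ((n : ℝ) - 2) + δ := by
    have : 0 < m * ((n : ℝ) - 2) := mul_pos hm (by linarith)
    linarith
  set α := m * ((n : ℝ) - 2) + δ with hαd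
  set v := T n α m i with hv
  have hSv : S n α m *ᵥ v = Pi.single i 1 := by
    have hTs : ∀ k l, T n α m k l = T n α m l k := by
      intro k l
      rw [T_apply, T_apply]
      simp only [eq_comm]
    funext l
    have := congrFun (congrFun (S_mul_T n hα hm) l) i
    rw [Matrix.mul_apply] at this
    simp only [mulVec, dotProduct]
    rw [show ∑ k, S n α m l k * v k = ∑ k, S n α m l k * T n α m k i from
      sum_congr rfl fun k _ => by rw [hv, hTs]]
    rw [this, Matrix.one_apply, Pi.single_apply]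
  have h1 := quad_nonneg h (u - v)
  have h2 : (u - v) ⬝ᵥ (J *ᵥ (u - v)) = u i - 2 * v i + v ⬝ᵥ (J *ᵥ v) := by
    have e1 : v ⬝ᵥ (J *ᵥ u) = v i := by rw [hu]; simp
    have e2 : u ⬝ᵥ (J *ᵥ u) = u i := by rw [hu]; simp
    have e3 : u ⬝ᵥ (J *ᵥ v) = v i := by
      rw [← e1, dotProduct_mulVec, ← Matrix.mulVec_transpose, h.symm.eq, dotProduct_comm]
    rw [mulVec_sub, sub_dotProduct, dotProduct_sub, dotProduct_sub, e1, e2, e3]
    ring
  have h3 := S_sub_J hn h v
  rw [← hαd, hSv] at h3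
  have h4 : v ⬝ᵥ (Pi.single i (1 : ℝ)) = v i := by simp
  rw [h4] at h3
  linarith

/-- The column sum identity and the resulting bound for the off-diagonal entries. -/
lemma off_lower {n : ℕ} (hn : 3 ≤ n) {m δ : ℝ}
    {J : Matrix (Fin n) (Fin n) ℝ} (h : InClass n m δ J) (i : Fin n) (u : Fin n → ℝ)
    (hu : J *ᵥ u = Pi.single i 1) :
    1 - u i * rowDom J i ≤ (δ + 2 * m * (n - 2)) * ∑ k ∈ univ.erase i, |u k| := by
  have hrow : J i i * u i + ∑ k ∈ univ.erase i, J i k * u k = 1 := by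
    have := congrFun hu i
    simp only [mulVec, dotProduct, Pi.single_eq_same] at this
    rw [← add_sum_erase univ (fun k => J i k * u k) (mem_univ i)] at this
    exact this
  have hcol : ∑ k, (J k k + ∑ j ∈ univ.erase k, J k j) * u k = 1 := by
    have h1 : ∑ l, (J *ᵥ u) l = 1 := by rw [hu]; simp
    rw [← h1]
    simp only [mulVec, dotProduct]
    rw [sum_comm]
    refine sum_congr rfl fun k _ => ?_
    rw [← sum_mul]
    congr 1
    rw [← add_sum_erase univ (fun l => J l k) (mem_univ k)]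
    congr 1
    exact sum_congr rfl fun l _ => (h.symm.apply k l).symm ▸ rfl
  have hcol' : (J i i + ∑ j ∈ univ.erase i, J i j) * u i
      + ∑ k ∈ univ.erase i, (J k k + ∑ j ∈ univ.erase k, J k j) * u k = 1 := by
    rw [← hcol, ← add_sum_erase univ
      (fun k => (J k k + ∑ j ∈ univ.erase k, J k j) * u k) (mem_univ i)]
  have hid : ∑ k ∈ univ.erase i,
      (rowDom J k + 2 * (∑ j ∈ univ.erase k, J k j - J i k)) * (- u k)
      = 1 - u i * rowDom J i := by
    have e : ∑ k ∈ univ.erase i,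
        (rowDom J k + 2 * (∑ j ∈ univ.erase k, J k j - J i k)) * (- u k)
        = 2 * ∑ k ∈ univ.erase i, J i k * u k
          - ∑ k ∈ univ.erase i, (J k k + ∑ j ∈ univ.erase k, J k j) * u k := by
      rw [mul_sum, ← sum_sub_distrib]
      refine sum_congr rfl fun k _ => ?_
      rw [diag_eq J k]; ring
    rw [e]
    have d := diag_eq J i
    rw [d] at hcol' hrow
    linear_combination 2 * hrow - hcol'
  rw [← hid, mul_sum]
  refine sum_le_sum fun k hk => ?_
  have hki : k ≠ i := (mem_erase.mp hk).1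
  have hsum : ∑ j ∈ univ.erase k, J k j - J i k = ∑ j ∈ (univ.erase k).erase i, J k j := by
    rw [← add_sum_erase (univ.erase k) (fun j => J k j) (mem_erase.mpr ⟨hki.symm, mem_univ i⟩),
      h.symm.apply k i]
    ring
  have hs0 : 0 ≤ ∑ j ∈ (univ.erase k).erase i, J k j := sum_nonneg fun j _ => (h.pos k j).le
  have hs1 : ∑ j ∈ (univ.erase k).erase i, J k j ≤ ((n : ℝ) - 2) * m := by
    have hc : ((((univ.erase k).erase i : Finset (Fin n)).card : ℕ) : ℝ) = n - 2 := by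
      rw [card_erase_of_mem (mem_erase.mpr ⟨hki.symm, mem_univ i⟩),
        card_erase_of_mem (mem_univ k), card_univ, Fintype.card_fin, Nat.cast_sub (by omega),
        Nat.cast_sub (by omega)]
      push_cast; ring
    calc ∑ j ∈ (univ.erase k).erase i, J k j ≤ ∑ j ∈ (univ.erase k).erase i, m :=
          sum_le_sum fun j hj => h.off_le k j (mem_erase.mp (mem_erase.mp hj).2).1.symm
      _ = ((n : ℝ) - 2) * m := by rw [sum_const, nsmul_eq_mul, hc]
  rw [hsum]
  have hd0 := h.dom_nonneg k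
  have hd1 := h.dom_le k
  have hw0 : 0 ≤ rowDom J k + 2 * ∑ j ∈ (univ.erase k).erase i, J k j := by linarith
  have hw1 : rowDom J k + 2 * ∑ j ∈ (univ.erase k).erase i, J k j ≤ δ + 2 * m * (n - 2) := by
    linarith
  calc (rowDom J k + 2 * ∑ j ∈ (univ.erase k).erase i, J k j) * (- u k)
      ≤ (rowDom J k + 2 * ∑ j ∈ (univ.erase k).erase i, J k j) * |u k| :=
        mul_le_mul_of_nonneg_left (neg_le_abs _) hw0
    _ ≤ _ := mul_le_mul_of_nonneg_right hw1 (abs_nonneg _)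

/-- Every row of the inverse has absolute sum at least the claimed value, up to the excess. -/
lemma row_lower {n : ℕ} (hn : 3 ≤ n) {m δ : ℝ} (hm : 0 < m) (hδ : 0 ≤ δ)
    {J : Matrix (Fin n) (Fin n) ℝ} (h : InClass n m δ J) (i : Fin n) :
    ((m * (n - 2) + δ) + 2 * m * (n - 1)) / ((m * (n - 2) + δ) * ((m * (n - 2) + δ) + m * n))
      + (2 * m * (n - 2)) / (δ + 2 * m * (n - 2))
        * excess m δ J (T n (m * (n - 2) + δ) m i) ≤ ∑ k, |J⁻¹ i k| := by
  have hn' : (3 : ℝ) ≤ n := by exact_mod_cast hn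
  have hm2 : 0 < m * ((n : ℝ) - 2) := mul_pos hm (by linarith)
  have hα : 0 < m * ((n : ℝ) - 2) + δ := by linarith
  have hαn : 0 < (m * ((n : ℝ) - 2) + δ) + m * n := by
    have : 0 < m * (n : ℝ) := mul_pos hm (by linarith)
    linarith
  have hW : 0 < δ + 2 * m * ((n : ℝ) - 2) := by nlinarith
  have hdet := det_unit hn h
  have hu : J *ᵥ (J⁻¹ i) = Pi.single i 1 := by
    funext l
    have e : (J⁻¹ * J) i l = (1 : Matrix (Fin n) (Fin n) ℝ) i l := by
      rw [Matrix.nonsing_inv_mul J hdet]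
    rw [Matrix.mul_apply] at e
    simp only [mulVec, dotProduct]
    rw [show ∑ k, J l k * J⁻¹ i k = ∑ k, J⁻¹ i k * J k l from
      sum_congr rfl fun k _ => by rw [h.symm.apply k l]; ring]
    rw [e, Matrix.one_apply, Pi.single_apply]
    simp only [eq_comm]
  have h1 := diag_lower hn hm hδ h i (J⁻¹ i) hu
  have h2 := off_lower hn h i (J⁻¹ i) hu
  have hD := excess_nonneg h (T n (m * (n - 2) + δ) m i)
  set D := excess m δ J (T n (m * (n - 2) + δ) m i) with hDd
  set s := ∑ k ∈ univ.erase i, |J⁻¹ i k| with hs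
  have hTii : T n (m * (n - 2) + δ) m i i
      = 1 / (m * (n - 2) + δ) - m / ((m * (n - 2) + δ) * ((m * (n - 2) + δ) + m * n)) := by
    rw [T_apply, if_pos rfl]
  have hTpos : 0 < T n (m * (n - 2) + δ) m i i := by
    rw [hTii, show 1 / (m * ((n : ℝ) - 2) + δ)
      - m / ((m * (n - 2) + δ) * ((m * (n - 2) + δ) + m * n))
      = (m * (n - 2) + δ + m * (n - 1)) / ((m * (n - 2) + δ) * ((m * (n - 2) + δ) + m * n)) by
        field_simp; ring]
    apply div_pos _ (mul_pos hα hαn)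
    have : 0 < m * ((n : ℝ) - 1) := mul_pos hm (by linarith)
    linarith
  have hupos : 0 < J⁻¹ i i := by linarith
  have h3 : 1 - J⁻¹ i i * δ ≤ (δ + 2 * m * (n - 2)) * s := by
    have := mul_le_mul_of_nonneg_left (h.dom_le i) hupos.le
    linarith
  have h4 : (1 - J⁻¹ i i * δ) / (δ + 2 * m * (n - 2)) ≤ s := by
    rw [div_le_iff₀ hW]; linarith
  have h5 : ∑ k, |J⁻¹ i k| = J⁻¹ i i + s := by
    rw [← add_sum_erase univ (fun k => |J⁻¹ i k|) (mem_univ i), abs_of_pos hupos]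
  rw [h5]
  have h6 : J⁻¹ i i + (1 - J⁻¹ i i * δ) / (δ + 2 * m * (n - 2))
      = (2 * m * (n - 2)) / (δ + 2 * m * (n - 2)) * J⁻¹ i i + 1 / (δ + 2 * m * (n - 2)) := by
    field_simp; ring
  have h7 : (2 * m * (n - 2)) / (δ + 2 * m * (n - 2)) * (T n (m * (n - 2) + δ) m i i + D)
      ≤ (2 * m * (n - 2)) / (δ + 2 * m * (n - 2)) * J⁻¹ i i := by
    apply mul_le_mul_of_nonneg_left h1
    apply div_nonneg _ hW.le
    linarith
  have h8 : ((m * (n - 2) + δ) + 2 * m * (n - 1)) /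
      ((m * (n - 2) + δ) * ((m * (n - 2) + δ) + m * n))
      = (2 * m * (n - 2)) / (δ + 2 * m * (n - 2)) * T n (m * (n - 2) + δ) m i i
        + 1 / (δ + 2 * m * (n - 2)) := by
    have hW' : δ + 2 * m * ((n : ℝ) - 2) ≠ 0 := hW.ne'
    have hα' : m * ((n : ℝ) - 2) + δ ≠ 0 := hα.ne'
    have hαn' : (m * ((n : ℝ) - 2) + δ) + m * n ≠ 0 := hαn.ne'
    rw [hTii]
    generalize hw : δ + 2 * m * ((n : ℝ) - 2) = w at *
    generalize ha : m * ((n : ℝ) - 2) + δ = a at *
    generalize hb : a + m * (n : ℝ) = b at *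
    field_simp
    subst hw hb ha
    ring
  rw [h8]
  linarith

lemma row_S {n : ℕ} (hn : 3 ≤ n) {m δ : ℝ} (hm : 0 < m) (hδ : 0 ≤ δ) (i : Fin n) :
    ∑ k, |(S n (m * (n - 2) + δ) m)⁻¹ i k| =
    ((m * (n - 2) + δ) + 2 * m * (n - 1)) /
      ((m * (n - 2) + δ) * ((m * (n - 2) + δ) + m * n)) := by
  have hn' : (3 : ℝ) ≤ n := by exact_mod_cast hn
  have hm2 : 0 < m * ((n : ℝ) - 2) := mul_pos hm (by linarith)
  have hα : 0 < m * ((n : ℝ) - 2) + δ := by linarith
  have hαn : 0 < (m * ((n : ℝ) - 2) + δ) + m * n := by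
    have : 0 < m * (n : ℝ) := mul_pos hm (by linarith)
    linarith
  rw [S_inv n hα hm, ← add_sum_erase univ _ (mem_univ i)]
  have h1 : |T n (m * (n - 2) + δ) m i i| =
      (m * (n - 2) + δ + m * (n - 1)) / ((m * (n - 2) + δ) * ((m * (n - 2) + δ) + m * n)) := by
    rw [T_apply, if_pos rfl, show 1 / (m * ((n : ℝ) - 2) + δ)
      - m / ((m * (n - 2) + δ) * ((m * (n - 2) + δ) + m * n))
      = (m * (n - 2) + δ + m * (n - 1)) / ((m * (n - 2) + δ) * ((m * (n - 2) + δ) + m * n)) by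
        field_simp; ring]
    apply abs_of_nonneg
    apply div_nonneg _ (mul_pos hα hαn).le
    have : 0 < m * ((n : ℝ) - 1) := mul_pos hm (by linarith)
    linarith
  have h2 : ∑ k ∈ univ.erase i, |T n (m * (n - 2) + δ) m i k| =
      ∑ k ∈ univ.erase i, m / ((m * (n - 2) + δ) * ((m * (n - 2) + δ) + m * n)) := by
    refine sum_congr rfl fun k hk => ?_
    rw [T_apply, if_neg (mem_erase.mp hk).1.symm, zero_sub, abs_neg, abs_of_nonneg]
    exact div_nonneg hm.le (mul_pos hα hαn).le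
  rw [h1, h2, sum_const, nsmul_eq_mul, card_erase' hn]
  field_simp
  ring

/-- **Full answer to Q1.** -/
theorem result : ∀ n : ℕ, 3 ≤ n → ∀ m δ : ℝ, 0 < m → 0 ≤ δ → ∀ α : ℝ, α = m * (n - 2) + δ →
    infNorm (S n α m)⁻¹ = (α + 2 * m * (n - 1)) / (α * (α + m * n)) ∧
    ∀ J : Matrix (Fin n) (Fin n) ℝ, InClass n m δ J →
      IsUnit J.det ∧
      (α + 2 * m * (n - 1)) / (α * (α + m * n)) ≤ infNorm J⁻¹ ∧
      (infNorm J⁻¹ = (α + 2 * m * (n - 1)) / (α * (α + m * n)) ↔ J = S n α m) := by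
  intro n hn m δ hm hδ α hα
  subst hα
  have hn' : (3 : ℝ) ≤ n := by exact_mod_cast hn
  have : Nonempty (Fin n) := ⟨⟨0, by omega⟩⟩
  have hm2 : 0 < m * ((n : ℝ) - 2) := mul_pos hm (by linarith)
  have hα : 0 < m * ((n : ℝ) - 2) + δ := by linarith
  have hαn : 0 < (m * ((n : ℝ) - 2) + δ) + m * n := by
    have : 0 < m * (n : ℝ) := mul_pos hm (by linarith)
    linarith
  have hW : 0 < δ + 2 * m * ((n : ℝ) - 2) := by nlinarith
  have hS : infNorm (S n (m * (n - 2) + δ) m)⁻¹ = ((m * (n - 2) + δ) + 2 * m * (n - 1)) /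
      ((m * (n - 2) + δ) * ((m * (n - 2) + δ) + m * n)) := by
    unfold infNorm
    simp only [row_S hn hm hδ]
    exact ciSup_const
  refine ⟨hS, fun J h => ⟨det_unit hn h, ?_⟩⟩
  let i0 : Fin n := ⟨0, by omega⟩
  have hbdd : BddAbove (Set.range fun i => ∑ j, |J⁻¹ i j|) := Set.finite_range _ |>.bddAbove
  have hle : ∑ j, |J⁻¹ i0 j| ≤ infNorm J⁻¹ := le_ciSup hbdd i0
  have hrow := row_lower hn hm hδ h i0
  have hD := excess_nonneg h (T n (m * (n - 2) + δ) m i0)
  have hc : 0 < (2 * m * ((n : ℝ) - 2)) / (δ + 2 * m * (n - 2)) := by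
    apply div_pos _ hW
    linarith
  have hmul := mul_nonneg hc.le hD
  refine ⟨by linarith, fun heq => ?_, fun heq => by rw [heq]; exact hS⟩
  rw [heq] at hle
  have h0 : (2 * m * ((n : ℝ) - 2)) / (δ + 2 * m * (n - 2)) *
      excess m δ J (T n (m * (n - 2) + δ) m i0) = 0 := by linarith
  have h0' : excess m δ J (T n (m * (n - 2) + δ) m i0) = 0 := by
    rcases mul_eq_zero.mp h0 with h1 | h1
    · exact absurd h1 hc.ne'
    · exact h1
  have hq : 0 < m / ((m * ((n : ℝ) - 2) + δ) * ((m * (n - 2) + δ) + m * n)) :=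
    div_pos hm (mul_pos hα hαn)
  have hpq : 0 < 1 / (m * ((n : ℝ) - 2) + δ)
      - 2 * (m / ((m * (n - 2) + δ) * ((m * (n - 2) + δ) + m * n))) := by
    rw [show 1 / (m * ((n : ℝ) - 2) + δ)
      - 2 * (m / ((m * (n - 2) + δ) * ((m * (n - 2) + δ) + m * n)))
      = (m * (n - 2) + δ + m * (n - 2)) / ((m * (n - 2) + δ) * ((m * (n - 2) + δ) + m * n)) by
        field_simp; ring]
    apply div_pos _ (mul_pos hα hαn)
    linarith
  refine excess_zero hn h _ ?_ ?_ h0'
  · intro k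
    rw [T_apply]
    by_cases hk : i0 = k
    · rw [if_pos hk]; exact (by linarith : (0 : ℝ) < _).ne'
    · rw [if_neg hk]; exact (by linarith : _ < (0 : ℝ)).ne
  · intro k l hkl
    rw [T_apply, T_apply]
    by_cases hk : i0 = k
    · have hl : ¬ i0 = l := fun hh => hkl (hk.symm.trans hh)
      rw [if_pos hk, if_neg hl]; exact (by linarith : (0 : ℝ) < _).ne'
    · by_cases hl : i0 = l
      · rw [if_neg hk, if_pos hl]; exact (by linarith : (0 : ℝ) < _).ne'
      · rw [if_neg hk, if_neg hl]; exact (by linarith : _ < (0 : ℝ)).ne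

end Pool.Agent.Results.MP_7ad8d2_an.Main
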